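import Mathlib

set_option autoImplicit false

/-! Zeros of entire functions in compact sets, factorisation, logarithmic derivative. -/

open Filter Topology Set

namespace Pool.Agent.H972R2.NL

lemma ident {f : ℂ → ℂ} (hf : Differentiable ℂ f) {z₀ : ℂ} (h : ∀ᶠ z in 𝓝 z₀, f z = 0) :
    ∀ z, f z = 0 := by
  have h1 : AnalyticOnNhd ℂ f univ := fun z _ => hf.analyticAt z
  have h2 := h1.eqOn_zero_of_preconnected_of_eventuallyEq_zero isPreconnected_univ (mem_univ z₀) h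
  exact fun z => h2 (mem_univ z)

lemma fin_zeros {f : ℂ → ℂ} (hf : Differentiable ℂ f) {z₁ : ℂ} (h1 : f z₁ ≠ 0) {K : Set ℂ}
    (hK : IsCompact K) : {z | z ∈ K ∧ f z = 0}.Finite := by
  by_contra hinf
  obtain ⟨z₀, _, hacc⟩ := Set.Infinite.exists_accPt_of_subset_isCompact hinf hK (fun z hz => hz.1)
  have h2 : ∃ᶠ z in 𝓝[≠] z₀, f z = 0 := by
    rw [accPt_iff_frequently_nhdsNE] at hacc
    exact hacc.mono fun z hz => hz.2
  have h3 := (hf.analyticAt z₀).frequently_zero_iff_eventually_zero.mp h2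
  exact h1 (ident hf h3 z₁)

lemma factor1 {f : ℂ → ℂ} (hf : Differentiable ℂ f) {z₁ : ℂ} (h1 : f z₁ ≠ 0) (ρ : ℂ) :
    ∃ (n : ℕ) (g : ℂ → ℂ), Differentiable ℂ g ∧ g ρ ≠ 0 ∧ ∀ z, f z = (z - ρ) ^ n * g z := by
  have h2 : ¬ ∀ᶠ z in 𝓝 ρ, f z = 0 := fun h => h1 (ident hf h z₁)
  obtain ⟨n, g, hg, hg0, hfg⟩ :=
    (hf.analyticAt ρ).exists_eventuallyEq_pow_smul_nonzero_iff.mpr h2
  classical
  set G : ℂ → ℂ := fun s => if s = ρ then g ρ else f s / (s - ρ) ^ n with hG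
  have hGρ : G ρ = g ρ := by simp [hG]
  have hGne : ∀ s, s ≠ ρ → G s = f s / (s - ρ) ^ n := fun s hs => by simp [hG, hs]
  have hev : ∀ᶠ z in 𝓝 ρ, G z = g z := by
    filter_upwards [hfg] with z hz
    by_cases h : z = ρ
    · rw [h, hGρ]
    · rw [hGne z h, hz, smul_eq_mul, mul_comm, mul_div_assoc, div_self, mul_one]
      exact pow_ne_zero _ (sub_ne_zero.mpr h)
  refine ⟨n, G, ?_, by rw [hGρ]; exact hg0, ?_⟩
  · intro z
    by_cases h : z = ρ
    · rw [h]
      exact hg.differentiableAt.congr_of_eventuallyEq hev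
    · have h3 : ∀ᶠ s in 𝓝 z, G s = f s / (s - ρ) ^ n := by
        filter_upwards [isOpen_ne.mem_nhds h] with s hs
        exact hGne s hs
      have h4 : DifferentiableAt ℂ (fun s => f s / (s - ρ) ^ n) z :=
        (hf z).div (by fun_prop) (pow_ne_zero _ (sub_ne_zero.mpr h))
      exact h4.congr_of_eventuallyEq h3
  · intro z
    by_cases h : z = ρ
    · rw [h, hGρ]
      have := hfg.self_of_nhds
      rw [this, smul_eq_mul]
    · rw [hGne z h, mul_div_cancel₀]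
      exact pow_ne_zero _ (sub_ne_zero.mpr h)

lemma factorF {f : ℂ → ℂ} (hf : Differentiable ℂ f) {z₁ : ℂ} (h1 : f z₁ ≠ 0) (F : Finset ℂ) :
    ∃ (m : ℂ → ℕ) (g : ℂ → ℂ), Differentiable ℂ g ∧ (∀ ρ ∈ F, g ρ ≠ 0) ∧
      ∀ z, f z = (∏ ρ ∈ F, (z - ρ) ^ m ρ) * g z := by
  classical
  induction F using Finset.induction_on with
  | empty => exact ⟨fun _ => 0, f, hf, by simp, by simp⟩
  | insert ρ F hρ ih =>
    obtain ⟨m, g, hg, hg0, hfg⟩ := ih
    have hg1 : g z₁ ≠ 0 := by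
      intro h
      apply h1
      rw [hfg, h, mul_zero]
    obtain ⟨n, G, hG, hGρ, hgG⟩ := factor1 hg hg1 ρ
    refine ⟨Function.update m ρ n, G, hG, ?_, ?_⟩
    · intro s hs
      rw [Finset.mem_insert] at hs
      rcases hs with rfl | hs
      · exact hGρ
      · intro h
        apply hg0 s hs
        rw [hgG, h, mul_zero]
    · intro z
      rw [Finset.prod_insert hρ, Function.update_self, hfg z, hgG z]
      have : ∏ s ∈ F, (z - s) ^ Function.update m ρ n s = ∏ s ∈ F, (z - s) ^ m s := by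
        refine Finset.prod_congr rfl fun s hs => ?_
        rw [Function.update_of_ne]
        rintro rfl
        exact hρ hs
      rw [this]
      ring

/-- the zeros in a compact set and the logarithmic derivative -/
lemma logder {f : ℂ → ℂ} (hf : Differentiable ℂ f) {z₁ : ℂ} (h1 : f z₁ ≠ 0) (F : Finset ℂ)
    (K : Set ℂ) (hF : ∀ z ∈ K, f z = 0 → z ∈ F) :
    ∃ (m : ℂ → ℕ) (g : ℂ → ℂ), Differentiable ℂ g ∧ (∀ z ∈ K, g z ≠ 0) ∧
      (∀ ρ ∈ F, f ρ = 0 → m ρ ≠ 0) ∧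
      ∀ z, f z ≠ 0 → deriv f z / f z = ∑ ρ ∈ F, (m ρ : ℂ) / (z - ρ) + deriv g z / g z := by
  classical
  obtain ⟨m, g, hg, hg0, hfg⟩ := factorF hf h1 F
  refine ⟨m, g, hg, ?_, ?_, ?_⟩
  · intro z hz h
    have h2 : f z = 0 := by rw [hfg, h, mul_zero]
    exact hg0 z (hF z hz h2) h
  · intro ρ hρ h2 h3
    rw [hfg ρ] at h2
    rcases mul_eq_zero.mp h2 with h | h
    · rw [Finset.prod_eq_zero_iff] at h
      obtain ⟨s, hs, h⟩ := h
      by_cases hsρ : s = ρ
      · rw [hsρ, h3, pow_zero] at h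
        exact one_ne_zero h
      · exact hsρ (sub_eq_zero.mp (eq_zero_of_pow_eq_zero h)).symm
    · exact hg0 ρ hρ h
  · intro z hz
    have hgz : g z ≠ 0 := by
      intro h
      apply hz
      rw [hfg, h, mul_zero]
    have hpz : ∀ ρ ∈ F, (z - ρ) ^ m ρ ≠ 0 := by
      intro ρ hρ h
      apply hz
      rw [hfg, Finset.prod_eq_zero hρ h, zero_mul]
    have e : f = fun z => (∏ ρ ∈ F, (z - ρ) ^ m ρ) * g z := funext hfg
    have h4 : logDeriv f z = ∑ ρ ∈ F, (m ρ : ℂ) / (z - ρ) + logDeriv g z := by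
      conv_lhs => rw [e]
      rw [logDeriv_mul z (Finset.prod_ne_zero_iff.mpr hpz) hgz (by fun_prop) (hg z)]
      congr 1
      rw [logDeriv_prod (fun ρ hρ => hpz ρ hρ) (fun ρ _ => by fun_prop)]
      refine Finset.sum_congr rfl fun ρ hρ => ?_
      rw [logDeriv_fun_pow (by fun_prop)]
      rw [logDeriv_apply]
      have : deriv (fun z => z - ρ) z = 1 := by
        rw [deriv_sub_const, deriv_id'']
      rw [this]
      ring
    rw [logDeriv_apply, logDeriv_apply] at h4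
    exact h4

end Pool.Agent.H972R2.NL
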