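import Mathlib

set_option autoImplicit false

/-! Gaussian averages and Laplace transforms. -/

open MeasureTheory Filter Topology Set Complex

namespace Pool.Agent.H972R2.NL

/-- `e^{μ z + V z²/2}` -/
noncomputable def Eg (V μ : ℝ) (z : ℂ) : ℂ := cexp (μ * z + V * z ^ 2 / 2)

lemma Eg_cont (V μ : ℝ) : Continuous (Eg V μ) := by
  unfold Eg
  fun_prop

lemma Eg_diff (V μ : ℝ) : Differentiable ℂ (Eg V μ) := by
  unfold Eg
  fun_prop

lemma Eg_norm (V μ x w : ℝ) : ‖Eg V μ (x + w * I)‖ = Real.exp (μ * x + V * (x ^ 2 - w ^ 2) / 2) := by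
  unfold Eg
  rw [Complex.norm_exp]
  congr 1
  have h : ((μ : ℂ) * (x + w * I) + V * (x + w * I) ^ 2 / 2) =
      ((μ * x + V * (x ^ 2 - w ^ 2) / 2 : ℝ) : ℂ) + ((μ * w + V * x * w : ℝ) : ℂ) * I := by
    push_cast
    linear_combination (V * w ^ 2 / 2 : ℂ) * Complex.I_sq
  rw [h, Complex.add_re, Complex.ofReal_re, Complex.re_ofReal_mul, Complex.I_re, mul_zero, add_zero]

lemma Eg_form (V μ x w : ℝ) : Eg V μ (x + w * I) =
    cexp ((-(V / 2 : ℂ)) * w ^ 2 + ((μ + V * x) * I) * w + (μ * x + V * x ^ 2 / 2)) := by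
  unfold Eg
  congr 1
  linear_combination (V * w ^ 2 / 2 : ℂ) * Complex.I_sq

lemma neg_re {V : ℝ} (hV : 0 < V) : (-(V / 2 : ℂ)).re < 0 := by
  have : (-(V / 2 : ℂ)) = ((-(V / 2) : ℝ) : ℂ) := by push_cast; ring
  rw [this, Complex.ofReal_re]
  linarith

lemma Eg_int {V : ℝ} (hV : 0 < V) (μ x : ℝ) : Integrable (fun w : ℝ => Eg V μ (x + w * I)) := by
  simp_rw [Eg_form]
  exact integrable_cexp_quadratic' (neg_re hV) _ _

lemma gauss_lap {V : ℝ} (hV : 0 < V) (μ v : ℝ) :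
    ∫ w : ℝ, cexp (-(1 + w * I) * v) * Eg V μ (1 + w * I) =
      (Real.sqrt (2 * Real.pi / V) : ℂ) * (Real.exp (-(v - μ) ^ 2 / (2 * V)) : ℂ) := by
  have h1 : ∀ w : ℝ, cexp (-(1 + w * I) * v) * Eg V μ (1 + w * I) =
      cexp ((-(V / 2 : ℂ)) * w ^ 2 + ((μ - v + V) * I) * w + (μ - v + V / 2)) := by
    intro w
    unfold Eg
    rw [← Complex.exp_add]
    congr 1
    linear_combination (V * w ^ 2 / 2 : ℂ) * Complex.I_sq
  simp_rw [h1]
  rw [integral_cexp_quadratic (neg_re hV)]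
  have hV0 : (V : ℂ) ≠ 0 := by exact_mod_cast hV.ne'
  congr 1
  · have h2 : (Real.pi : ℂ) / -(-(V / 2 : ℂ)) = ((2 * Real.pi / V : ℝ) : ℂ) := by
      push_cast
      field_simp
    rw [h2, Real.sqrt_eq_rpow, Complex.ofReal_cpow (by positivity)]
    norm_num
  · rw [Complex.ofReal_exp]
    congr 1
    push_cast
    field_simp
    linear_combination (4 * (μ - v + V) ^ 2 : ℂ) * Complex.I_sq

/-- the inversion formula -/
theorem inv_formula (T : ℝ → ℂ)
    (hT : IntegrableOn (fun v : ℝ => T v * cexp (-(1 : ℂ) * v)) (Ioi 0)) {V : ℝ} (hV : 0 < V)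
    (μ : ℝ) :
    Integrable (fun w : ℝ => (∫ v in Ioi (0 : ℝ), T v * cexp (-(1 + w * I) * v)) *
      Eg V μ (1 + w * I)) ∧
    ∫ w : ℝ, (∫ v in Ioi (0 : ℝ), T v * cexp (-(1 + w * I) * v)) * Eg V μ (1 + w * I) =
      (Real.sqrt (2 * Real.pi / V) : ℂ) *
        ∫ v in Ioi (0 : ℝ), T v * (Real.exp (-(v - μ) ^ 2 / (2 * V)) : ℂ) := by
  have hE : Integrable (fun w : ℝ => Eg V μ (1 + w * I)) := by
    have := Eg_int hV μ 1
    simpa using this
  have h1 : Integrable (fun p : ℝ × ℝ => Eg V μ (1 + p.1 * I) * (T p.2 * cexp (-(1 : ℂ) * p.2)))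
      (volume.prod (volume.restrict (Ioi 0))) := hE.mul_prod hT
  have h2 : Integrable (fun p : ℝ × ℝ => cexp (-(p.1 * p.2) * I) *
      (Eg V μ (1 + p.1 * I) * (T p.2 * cexp (-(1 : ℂ) * p.2))))
      (volume.prod (volume.restrict (Ioi 0))) := by
    refine h1.mono (by
      refine AEStronglyMeasurable.mul ?_ h1.aestronglyMeasurable
      exact (by fun_prop : Continuous fun p : ℝ × ℝ => cexp (-(p.1 * p.2) * I)).aestronglyMeasurable)
      (Eventually.of_forall fun p => ?_)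
    rw [norm_mul]
    have : ‖cexp (-(p.1 * p.2 : ℂ) * I)‖ = 1 := by
      have e : (-(p.1 * p.2 : ℂ) * I) = ((-(p.1 * p.2) : ℝ) : ℂ) * I := by push_cast; ring
      rw [e, Complex.norm_exp_ofReal_mul_I]
    rw [this, one_mul]
  have h3 : ∀ p : ℝ × ℝ, cexp (-(p.1 * p.2) * I) *
      (Eg V μ (1 + p.1 * I) * (T p.2 * cexp (-(1 : ℂ) * p.2))) =
      T p.2 * cexp (-(1 + p.1 * I) * p.2) * Eg V μ (1 + p.1 * I) := by
    intro p
    have e : cexp (-(1 + p.1 * I) * p.2) = cexp (-(p.1 * p.2) * I) * cexp (-(1 : ℂ) * p.2) := by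
      rw [← Complex.exp_add]
      congr 1
      ring
    rw [e]
    ring
  simp_rw [h3] at h2
  have h4 : ∫ w : ℝ, ∫ v in Ioi (0 : ℝ), T v * cexp (-(1 + w * I) * v) * Eg V μ (1 + w * I) =
      ∫ v in Ioi (0 : ℝ), ∫ w : ℝ, T v * cexp (-(1 + w * I) * v) * Eg V μ (1 + w * I) :=
    integral_integral_swap
      (f := fun w v : ℝ => T v * cexp (-(1 + w * I) * v) * Eg V μ (1 + w * I)) h2
  have h5 : ∀ w : ℝ, (∫ v in Ioi (0 : ℝ), T v * cexp (-(1 + w * I) * v)) * Eg V μ (1 + w * I) =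
      ∫ v in Ioi (0 : ℝ), T v * cexp (-(1 + w * I) * v) * Eg V μ (1 + w * I) := by
    intro w
    rw [integral_mul_const]
  simp_rw [h5]
  refine ⟨h2.integral_prod_left, ?_⟩
  rw [h4, ← integral_const_mul]
  refine integral_congr_ae (Eventually.of_forall fun v => ?_)
  simp only
  have h6 : ∀ w : ℝ, T v * cexp (-(1 + w * I) * v) * Eg V μ (1 + w * I) =
      T v * (cexp (-(1 + w * I) * v) * Eg V μ (1 + w * I)) := fun w => by ring
  simp_rw [h6]
  rw [integral_const_mul, gauss_lap hV]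
  ring

/-- the Gaussian integral against an exponential -/
lemma gauss_exp {V : ℝ} (hV : 0 < V) (μ : ℝ) (z : ℂ) :
    ∫ v : ℝ, cexp (z * v) * (Real.exp (-(v - μ) ^ 2 / (2 * V)) : ℂ) =
      (Real.sqrt (2 * Real.pi * V) : ℂ) * Eg V μ z := by
  have hV0 : (V : ℂ) ≠ 0 := by exact_mod_cast hV.ne'
  have h1 : ∀ v : ℝ, cexp (z * v) * (Real.exp (-(v - μ) ^ 2 / (2 * V)) : ℂ) =
      cexp ((-(1 / (2 * V) : ℂ)) * v ^ 2 + (z + μ / V) * v + (-(μ ^ 2 / (2 * V) : ℂ))) := by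
    intro v
    rw [Complex.ofReal_exp, ← Complex.exp_add]
    congr 1
    push_cast
    field_simp
    ring
  simp_rw [h1]
  have hre : (-(1 / (2 * V) : ℂ)).re < 0 := by
    have : (-(1 / (2 * V) : ℂ)) = ((-(1 / (2 * V)) : ℝ) : ℂ) := by push_cast; ring
    rw [this, Complex.ofReal_re]
    have : 0 < 1 / (2 * V) := by positivity
    linarith
  rw [integral_cexp_quadratic hre]
  congr 1
  · have h2 : (Real.pi : ℂ) / -(-(1 / (2 * V) : ℂ)) = ((2 * Real.pi * V : ℝ) : ℂ) := by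
      push_cast
      field_simp
    rw [h2, Real.sqrt_eq_rpow, Complex.ofReal_cpow (by positivity)]
    norm_num
  · unfold Eg
    congr 1
    field_simp
    ring

lemma gauss_exp_int {V : ℝ} (hV : 0 < V) (μ : ℝ) (z : ℂ) :
    Integrable (fun v : ℝ => cexp (z * v) * (Real.exp (-(v - μ) ^ 2 / (2 * V)) : ℂ)) := by
  have hV0 : (V : ℂ) ≠ 0 := by exact_mod_cast hV.ne'
  have h1 : ∀ v : ℝ, cexp (z * v) * (Real.exp (-(v - μ) ^ 2 / (2 * V)) : ℂ) =
      cexp ((-(1 / (2 * V) : ℂ)) * v ^ 2 + (z + μ / V) * v + (-(μ ^ 2 / (2 * V) : ℂ))) := by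
    intro v
    rw [Complex.ofReal_exp, ← Complex.exp_add]
    congr 1
    push_cast
    field_simp
    ring
  simp_rw [h1]
  have hre : (-(1 / (2 * V) : ℂ)).re < 0 := by
    have : (-(1 / (2 * V) : ℂ)) = ((-(1 / (2 * V)) : ℝ) : ℂ) := by push_cast; ring
    rw [this, Complex.ofReal_re]
    have : 0 < 1 / (2 * V) := by positivity
    linarith
  exact integrable_cexp_quadratic' hre _ _

/-- the half line -/
lemma gauss_half {δ : ℝ} (hδ : 0 < δ) (hδ1 : δ ≤ 1) {μ : ℝ} (hμ : 1 ≤ μ) {z : ℂ}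
    (hz : -(1 / 2) ≤ z.re) :
    ‖(∫ v in Ioi (0 : ℝ), cexp (z * v) * (Real.exp (-(v - μ) ^ 2 / (2 * (δ * μ))) : ℂ)) -
      (Real.sqrt (2 * Real.pi * (δ * μ)) : ℂ) * Eg (δ * μ) μ z‖ ≤ 2 * Real.exp (-μ / 2) := by
  have hμ0 : 0 < μ := by linarith
  have hV : 0 < δ * μ := by positivity
  rw [← gauss_exp hV]
  have h1 := gauss_exp_int hV μ z
  have h2 := intervalIntegral.integral_Iic_add_Ioi (b := (0 : ℝ)) (μ := volume) h1.integrableOn
    h1.integrableOn
  rw [← h2]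
  have h3 : ∀ a b : ℂ, a - (b + a) = -b := fun a b => by ring
  rw [h3, norm_neg]
  have h4 : ∀ v ∈ Iic (0 : ℝ),
      ‖cexp (z * v) * (Real.exp (-(v - μ) ^ 2 / (2 * (δ * μ))) : ℂ)‖ ≤
      Real.exp (-μ / 2) * Real.exp (1 / 2 * v) := by
    intro v hv
    rw [mem_Iic] at hv
    rw [norm_mul, Complex.norm_exp, Complex.norm_real, Real.norm_eq_abs, Real.abs_exp,
      ← Real.exp_add, ← Real.exp_add]
    apply Real.exp_le_exp.mpr
    have h5 : (z * v).re = z.re * v := by simp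
    rw [h5]
    have h6 : z.re * v ≤ -(1 / 2) * v := by nlinarith
    have h7 : -(v - μ) ^ 2 / (2 * (δ * μ)) ≤ -μ / 2 + v := by
      rw [div_le_iff₀ (by positivity)]
      have h8 : 0 ≤ μ * (μ - 2 * v) := by nlinarith
      nlinarith [mul_nonneg (sub_nonneg.mpr hδ1) h8, sq_nonneg v]
    linarith
  have hexp : IntegrableOn (fun v : ℝ => Real.exp (-μ / 2) * Real.exp (1 / 2 * v)) (Iic 0) :=
    (integrableOn_exp_mul_Iic (by norm_num) 0).const_mul _
  calc ‖∫ v in Iic (0 : ℝ), cexp (z * v) * (Real.exp (-(v - μ) ^ 2 / (2 * (δ * μ))) : ℂ)‖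
      ≤ ∫ v in Iic (0 : ℝ), Real.exp (-μ / 2) * Real.exp (1 / 2 * v) :=
        norm_integral_le_of_norm_le hexp (by
          rw [ae_restrict_iff' measurableSet_Iic]
          exact Eventually.of_forall h4)
    _ = 2 * Real.exp (-μ / 2) := by
        rw [integral_const_mul, integral_exp_mul_Iic (by norm_num)]
        norm_num
        ring

/-- Gaussian averages of a function whose Laplace transform continues analytically. -/
theorem locSmall {δ : ℝ} (hδ : 0 < δ) (hδ1 : δ ≤ 1) {R : ℝ} (hR0 : 0 < R) (hR : 16 ≤ δ * R ^ 2)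
    (T : ℝ → ℂ) (hT : IntegrableOn (fun v : ℝ => T v * cexp (-(1 : ℂ) * v)) (Ioi 0)) (A : ℂ → ℂ)
    (hA : DifferentiableOn ℂ A (Icc (-(1 / 4)) 1 ×ℂ Icc (-R) R))
    (hL : ∀ w : ℝ, |w| ≤ R →
      ∫ v in Ioi (0 : ℝ), T v * cexp (-(1 + w * I) * v) = A (1 + w * I)) :
    ∃ C : ℝ, 0 ≤ C ∧ ∀ μ : ℝ, 1 ≤ μ →
      ‖∫ v in Ioi (0 : ℝ), T v * (Real.exp (-(v - μ) ^ 2 / (2 * (δ * μ))) : ℂ)‖ ≤
        C * Real.exp (-μ / 8) := by
  -- the bounds
  set B1 : ℝ := ∫ v in Ioi (0 : ℝ), ‖T v * cexp (-(1 : ℂ) * v)‖ with hB1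
  have hB1' : 0 ≤ B1 := by positivity
  have hL1 : ∀ w : ℝ, ‖∫ v in Ioi (0 : ℝ), T v * cexp (-(1 + w * I) * v)‖ ≤ B1 := by
    intro w
    refine (norm_integral_le_integral_norm _).trans (le_of_eq ?_)
    refine integral_congr_ae (Eventually.of_forall fun v => ?_)
    simp only
    rw [norm_mul, norm_mul, Complex.norm_exp, Complex.norm_exp]
    congr 2
    simp
  set B2 : ℝ := ∫ w : ℝ, Real.exp (-(δ / 4) * w ^ 2) with hB2
  have hB2' : 0 ≤ B2 := by positivity
  have hB2i : Integrable (fun w : ℝ => Real.exp (-(δ / 4) * w ^ 2)) :=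
    integrable_exp_neg_mul_sq (by positivity)
  have hcomp : IsCompact (Icc (-(1 / 4)) 1 ×ℂ Icc (-R) R) := isCompact_Icc.reProdIm isCompact_Icc
  obtain ⟨B3, hB3⟩ := hcomp.exists_bound_of_continuousOn hA.continuousOn
  have hB3' : 0 ≤ B3 := by
    refine (norm_nonneg _).trans (hB3 0 ?_)
    rw [Complex.mem_reProdIm]
    simp only [zero_re, zero_im, mem_Icc]
    exact ⟨⟨by norm_num, by norm_num⟩, by linarith, hR0.le⟩
  set C2 : ℝ := B1 * B2 + 3 * B3 + 2 * R * B3 with hC2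
  have hC2' : 0 ≤ C2 := by positivity
  refine ⟨C2 * (32 / 3), by positivity, fun μ hμ => ?_⟩
  have hμ0 : 0 < μ := by linarith
  have hV : 0 < δ * μ := by positivity
  obtain ⟨hint, heq⟩ := inv_formula T hT hV μ
  set h : ℝ → ℂ := fun w : ℝ => (∫ v in Ioi (0 : ℝ), T v * cexp (-(1 + w * I) * v)) *
      Eg (δ * μ) μ (1 + w * I) with hh
  -- the tails
  have htail : ‖∫ w in (Icc (-R) R)ᶜ, h w‖ ≤ B1 * B2 * Real.exp (-μ) := by
    have h1 : ∀ w ∈ (Icc (-R) R)ᶜ, ‖h w‖ ≤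
        (B1 * Real.exp (-μ)) * Real.exp (-(δ / 4) * w ^ 2) := by
      intro w hw
      have hw2 : R ^ 2 ≤ w ^ 2 := by
        rw [mem_compl_iff, mem_Icc, not_and_or, not_le, not_le] at hw
        rcases hw with hw | hw <;> nlinarith
      rw [hh]
      simp only
      rw [norm_mul]
      have h2 : ‖Eg (δ * μ) μ (1 + w * I)‖ ≤ Real.exp (-μ) * Real.exp (-(δ / 4) * w ^ 2) := by
        have := Eg_norm (δ * μ) μ 1 w
        rw [Complex.ofReal_one] at this
        rw [this, ← Real.exp_add]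
        apply Real.exp_le_exp.mpr
        have h3 : δ * R ^ 2 ≤ δ * w ^ 2 := by gcongr
        have h4 : 0 ≤ (μ - 1) * (δ * w ^ 2 / 4) :=
          mul_nonneg (by linarith) (by positivity)
        nlinarith [mul_nonneg hμ0.le (sub_nonneg.mpr hδ1),
          mul_nonneg hμ0.le (sub_nonneg.mpr (hR.trans h3))]
      calc ‖∫ v in Ioi (0 : ℝ), T v * cexp (-(1 + w * I) * v)‖ * ‖Eg (δ * μ) μ (1 + w * I)‖
          ≤ B1 * (Real.exp (-μ) * Real.exp (-(δ / 4) * w ^ 2)) :=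
            mul_le_mul (hL1 w) h2 (norm_nonneg _) hB1'
        _ = _ := by ring
    calc ‖∫ w in (Icc (-R) R)ᶜ, h w‖
        ≤ ∫ w in (Icc (-R) R)ᶜ, (B1 * Real.exp (-μ)) * Real.exp (-(δ / 4) * w ^ 2) :=
          norm_integral_le_of_norm_le (hB2i.const_mul _).integrableOn (by
            rw [ae_restrict_iff' measurableSet_Icc.compl]
            exact Eventually.of_forall h1)
      _ ≤ ∫ w : ℝ, (B1 * Real.exp (-μ)) * Real.exp (-(δ / 4) * w ^ 2) :=
          setIntegral_le_integral (hB2i.const_mul _)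
            (Eventually.of_forall fun w => by positivity)
      _ = B1 * B2 * Real.exp (-μ) := by
          rw [integral_const_mul]
          ring
  -- the centre
  set f : ℂ → ℂ := fun z => A z * Eg (δ * μ) μ z with hf
  have hfd : DifferentiableOn ℂ f (Icc (-(1 / 4)) 1 ×ℂ Icc (-R) R) :=
    hA.mul (Eg_diff _ _).differentiableOn
  have hcen : ∫ w in Icc (-R) R, h w = ∫ w in (-R)..R, f (1 + w * I) := by
    rw [intervalIntegral.integral_of_le (by linarith), ← integral_Icc_eq_integral_Ioc]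
    refine setIntegral_congr_fun measurableSet_Icc fun w hw => ?_
    rw [hh, hf]
    simp only
    rw [hL w (abs_le.mpr hw)]
  have hrect := Complex.integral_boundary_rect_eq_zero_of_differentiableOn f ⟨-(1 / 4), -R⟩ ⟨1, R⟩
    (by
      simp only
      rw [uIcc_of_le (by norm_num), uIcc_of_le (by linarith)]
      exact hfd)
  simp only at hrect
  have hbot : ‖∫ x : ℝ in (-(1 / 4))..1, f (x + (-R : ℝ) * I)‖ ≤ B3 * Real.exp (-μ) * (5 / 4) := by
    have h1 : ∀ x ∈ uIoc (-(1 / 4) : ℝ) 1, ‖f (x + (-R : ℝ) * I)‖ ≤ B3 * Real.exp (-μ) := by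
      intro x hx
      rw [uIoc_of_le (by norm_num)] at hx
      rw [hf]
      simp only
      rw [norm_mul, Eg_norm]
      gcongr
      · apply hB3
        rw [Complex.mem_reProdIm]
        simp only [add_re, ofReal_re, mul_re, I_re, mul_zero, ofReal_im, I_im, mul_one, sub_self,
          add_zero, add_im, mul_im, zero_add, mem_Icc]
        refine ⟨⟨hx.1.le, hx.2⟩, le_rfl, by linarith⟩
      · have h2 : x ^ 2 ≤ 1 := by
          have := hx.1; have := hx.2
          nlinarith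
        have h3 : μ * x ≤ μ := by nlinarith [hx.2]
        have h4 : δ * μ * (x ^ 2 - (-R) ^ 2) / 2 ≤ μ * (1 / 2 - 8) := by
          have h5 : δ * x ^ 2 ≤ 1 := by nlinarith [sq_nonneg x]
          have h6 : 0 ≤ μ * (1 - δ * x ^ 2) := mul_nonneg hμ0.le (by linarith)
          have h7 : 0 ≤ μ * (δ * R ^ 2 - 16) := mul_nonneg hμ0.le (by linarith)
          nlinarith
        linarith
    have := intervalIntegral.norm_integral_le_of_norm_le_const h1
    refine this.trans (le_of_eq ?_)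
    rw [show |(1 : ℝ) - -(1 / 4)| = 5 / 4 by norm_num]
  have htop : ‖∫ x : ℝ in (-(1 / 4))..1, f (x + (R : ℝ) * I)‖ ≤ B3 * Real.exp (-μ) * (5 / 4) := by
    have h1 : ∀ x ∈ uIoc (-(1 / 4) : ℝ) 1, ‖f (x + (R : ℝ) * I)‖ ≤ B3 * Real.exp (-μ) := by
      intro x hx
      rw [uIoc_of_le (by norm_num)] at hx
      rw [hf]
      simp only
      rw [norm_mul, Eg_norm]
      gcongr
      · apply hB3
        rw [Complex.mem_reProdIm]
        simp only [add_re, ofReal_re, mul_re, I_re, mul_zero, ofReal_im, I_im, mul_one, sub_self,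
          add_zero, add_im, mul_im, zero_add, mem_Icc]
        refine ⟨⟨hx.1.le, hx.2⟩, by linarith, le_rfl⟩
      · have h2 : x ^ 2 ≤ 1 := by
          have := hx.1; have := hx.2
          nlinarith
        have h3 : μ * x ≤ μ := by nlinarith [hx.2]
        have h4 : δ * μ * (x ^ 2 - R ^ 2) / 2 ≤ μ * (1 / 2 - 8) := by
          have h5 : δ * x ^ 2 ≤ 1 := by nlinarith [sq_nonneg x]
          have h6 : 0 ≤ μ * (1 - δ * x ^ 2) := mul_nonneg hμ0.le (by linarith)
          have h7 : 0 ≤ μ * (δ * R ^ 2 - 16) := mul_nonneg hμ0.le (by linarith)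
          nlinarith
        linarith
    have := intervalIntegral.norm_integral_le_of_norm_le_const h1
    refine this.trans (le_of_eq ?_)
    rw [show |(1 : ℝ) - -(1 / 4)| = 5 / 4 by norm_num]
  have hleft : ‖∫ y : ℝ in (-R)..R, f ((-(1 / 4) : ℝ) + y * I)‖ ≤
      B3 * Real.exp (-(7 * μ / 32)) * (2 * R) := by
    have h1 : ∀ y ∈ uIoc (-R) R, ‖f ((-(1 / 4) : ℝ) + y * I)‖ ≤
        B3 * Real.exp (-(7 * μ / 32)) := by
      intro y hy
      rw [uIoc_of_le (by linarith)] at hy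
      rw [hf]
      simp only
      rw [norm_mul, Eg_norm]
      gcongr
      · apply hB3
        rw [Complex.mem_reProdIm]
        simp only [add_re, ofReal_re, mul_re, I_re, mul_zero, ofReal_im, I_im, mul_one, sub_self,
          add_zero, add_im, mul_im, zero_add, mem_Icc]
        refine ⟨⟨le_rfl, by norm_num⟩, hy.1.le, hy.2⟩
      · have h2 : 0 ≤ δ * μ * y ^ 2 := by positivity
        have h3 : 0 ≤ (1 - δ) * μ := mul_nonneg (by linarith) hμ0.le
        nlinarith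
    have := intervalIntegral.norm_integral_le_of_norm_le_const h1
    refine this.trans (le_of_eq ?_)
    rw [show |R - -R| = 2 * R by rw [abs_of_pos] <;> linarith]
  have hright : ‖∫ w in (-R)..R, f (1 + w * I)‖ ≤
      B3 * Real.exp (-μ) * (5 / 4) + B3 * Real.exp (-μ) * (5 / 4) +
        B3 * Real.exp (-(7 * μ / 32)) * (2 * R) := by
    have e : I • (∫ w in (-R)..R, f (1 + w * I)) =
        -(∫ x : ℝ in (-(1 / 4))..1, f (x + (-R : ℝ) * I)) +
        (∫ x : ℝ in (-(1 / 4))..1, f (x + (R : ℝ) * I)) +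
        I • (∫ y : ℝ in (-R)..R, f ((-(1 / 4) : ℝ) + y * I)) := by
      rw [Complex.ofReal_one] at hrect
      linear_combination hrect
    have e2 : ‖∫ w in (-R)..R, f (1 + w * I)‖ = ‖I • (∫ w in (-R)..R, f (1 + w * I))‖ := by
      rw [norm_smul, Complex.norm_I, one_mul]
    rw [e2, e]
    refine (norm_add_le _ _).trans (add_le_add ((norm_add_le _ _).trans (add_le_add ?_ htop)) ?_)
    · rw [norm_neg]; exact hbot
    · rw [norm_smul, Complex.norm_I, one_mul]; exact hleft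
  have hexp : Real.exp (-μ) ≤ Real.exp (-(7 * μ / 32)) := Real.exp_le_exp.mpr (by linarith)
  have htot : ‖∫ w, h w‖ ≤ C2 * Real.exp (-(7 * μ / 32)) := by
    rw [← integral_add_compl measurableSet_Icc hint (s := Icc (-R) R), hcen]
    refine (norm_add_le _ _).trans ((add_le_add hright htail).trans ?_)
    have h1 : B1 * B2 * Real.exp (-μ) ≤ B1 * B2 * Real.exp (-(7 * μ / 32)) := by gcongr
    have h2 : B3 * Real.exp (-μ) ≤ B3 * Real.exp (-(7 * μ / 32)) := by gcongr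
    have h3 : 0 ≤ B3 * Real.exp (-(7 * μ / 32)) := by positivity
    rw [hC2]
    nlinarith
  -- conclusion
  set Y : ℂ := ∫ v in Ioi (0 : ℝ), T v * (Real.exp (-(v - μ) ^ 2 / (2 * (δ * μ))) : ℂ) with hY
  have hs : 1 / μ ≤ Real.sqrt (2 * Real.pi / (δ * μ)) := by
    apply Real.le_sqrt_of_sq_le
    rw [div_pow, one_pow, div_le_div_iff₀ (by positivity) hV]
    have h1 : δ * μ ≤ μ := by nlinarith
    have h2 : μ ≤ μ ^ 2 := by nlinarith
    have h3 : (1 : ℝ) ≤ 2 * Real.pi := by linarith [Real.pi_gt_three]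
    nlinarith [sq_nonneg μ]
  have hYle : ‖Y‖ ≤ μ * (C2 * Real.exp (-(7 * μ / 32))) := by
    have h1 : Real.sqrt (2 * Real.pi / (δ * μ)) * ‖Y‖ = ‖∫ w, h w‖ := by
      rw [heq, norm_mul, Complex.norm_real, Real.norm_eq_abs, abs_of_nonneg (Real.sqrt_nonneg _)]
    have h2 : 1 / μ * ‖Y‖ ≤ C2 * Real.exp (-(7 * μ / 32)) := by
      calc 1 / μ * ‖Y‖ ≤ Real.sqrt (2 * Real.pi / (δ * μ)) * ‖Y‖ := by gcongr
        _ ≤ _ := by rw [h1]; exact htot
    calc ‖Y‖ = μ * (1 / μ * ‖Y‖) := by field_simp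
      _ ≤ _ := by gcongr
  refine hYle.trans ?_
  have h1 : μ * Real.exp (-(7 * μ / 32)) ≤ 32 / 3 * Real.exp (-μ / 8) := by
    have h2 : Real.exp (-μ / 8) = Real.exp (3 * μ / 32) * Real.exp (-(7 * μ / 32)) := by
      rw [← Real.exp_add]
      congr 1
      ring
    rw [h2, ← mul_assoc]
    gcongr
    have := Real.add_one_le_exp (3 * μ / 32)
    linarith
  calc μ * (C2 * Real.exp (-(7 * μ / 32))) = C2 * (μ * Real.exp (-(7 * μ / 32))) := by ring
    _ ≤ C2 * (32 / 3 * Real.exp (-μ / 8)) := by gcongr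
    _ = _ := by ring

end Pool.Agent.H972R2.NL
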