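import Pool.Agent.H295R2.Nic.Defs
import Pool.Agent.H972R2.NL.Fac
import Pool.Agent.H972R2.NL.Gau

set_option autoImplicit false

/-! N8: modulated Gaussian averages of `ψ(e^v) - e^v` are not small. -/

open MeasureTheory Filter Topology Set Complex

namespace Pool.Agent.H972R2.NL

open Pool.Agent.H295R2 Pool.Agent.H295R2.Nic

/-- choice of the frequency: a unique maximiser among the zeros in a window. -/
lemma choice {δ : ℝ} (hδ : 0 < δ) (hδ1 : δ ≤ 1) {η : ℝ} (hη : 0 < η) (hη1 : η ≤ 1 / 10) {R : ℝ}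
    (hR : 0 < R) : ∃ (τ : ℝ) (ρ₁ : ℂ) (F : Finset ℂ),
      (∀ s, s ∈ F ↔ (s ∈ Icc (zetaSup - 1 / 4) (zetaSup + 1) ×ℂ Icc (-τ - R) (-τ + R) ∧ Zs s = 0)) ∧
      ρ₁ ∈ F ∧ (∀ s ∈ F, s.re ≤ zetaSup) ∧
      -(η / 4) ≤ (ρ₁.re - zetaSup) + δ * ((ρ₁.re - zetaSup) ^ 2 - (ρ₁.im + τ) ^ 2) / 2 ∧
      ∀ s ∈ F, s ≠ ρ₁ → (s.re - zetaSup) + δ * ((s.re - zetaSup) ^ 2 - (s.im + τ) ^ 2) / 2 <
        (ρ₁.re - zetaSup) + δ * ((ρ₁.re - zetaSup) ^ 2 - (ρ₁.im + τ) ^ 2) / 2 := by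
  set Θ : ℝ := zetaSup with hΘ
  obtain ⟨ρ₀, hρ₀, hz₀⟩ := zetaSup_sup (η / 4) (by linarith)
  have hle : ∀ s, Zs s = 0 → s.re ≤ Θ := by
    intro s hs
    by_contra h
    exact zetaSup_free s (not_le.mp h) hs
  have h1 : Zs 1 ≠ 0 := Zs_ne_zero_of_one_le (by simp)
  have hK0 : IsCompact (Icc (Θ - 1 / 4) (Θ + 1) ×ℂ Icc (ρ₀.im - 2 * R) (ρ₀.im + 2 * R)) :=
    isCompact_Icc.reProdIm isCompact_Icc
  set F₀ : Finset ℂ := (fin_zeros Zs_differentiable h1 hK0).toFinset with hF₀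
  have hm0 : ∀ s, s ∈ F₀ ↔
      (s ∈ Icc (Θ - 1 / 4) (Θ + 1) ×ℂ Icc (ρ₀.im - 2 * R) (ρ₀.im + 2 * R) ∧ Zs s = 0) := by
    intro s
    rw [hF₀, Set.Finite.mem_toFinset, Set.mem_ofPred_eq]
  have hρ₀F : ρ₀ ∈ F₀ := by
    rw [hm0, Complex.mem_reProdIm, mem_Icc, mem_Icc]
    exact ⟨⟨⟨by linarith, by linarith [hle ρ₀ hz₀]⟩, by linarith, by linarith⟩, hz₀⟩
  set W : ℂ → ℝ := fun s => (s.re - Θ) + δ * (s.re - Θ) ^ 2 / 2 - δ / 4 * (s.im - ρ₀.im) ^ 2 with hW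
  obtain ⟨ρ₁, hρ₁, hmax⟩ := F₀.exists_max_image W ⟨ρ₀, hρ₀F⟩
  set τ : ℝ := -(ρ₀.im + ρ₁.im) / 2 with hτ
  have hK : IsCompact (Icc (Θ - 1 / 4) (Θ + 1) ×ℂ Icc (-τ - R) (-τ + R)) :=
    isCompact_Icc.reProdIm isCompact_Icc
  set F : Finset ℂ := (fin_zeros Zs_differentiable h1 hK).toFinset with hF
  have hm : ∀ s, s ∈ F ↔
      (s ∈ Icc (Θ - 1 / 4) (Θ + 1) ×ℂ Icc (-τ - R) (-τ + R) ∧ Zs s = 0) := by
    intro s
    rw [hF, Set.Finite.mem_toFinset, Set.mem_ofPred_eq]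
  have hρ₁' := (hm0 ρ₁).mp hρ₁
  rw [Complex.mem_reProdIm, mem_Icc, mem_Icc] at hρ₁'
  obtain ⟨⟨⟨a1, a2⟩, a3, a4⟩, a5⟩ := hρ₁'
  have hρ₁F : ρ₁ ∈ F := by
    rw [hm, Complex.mem_reProdIm, mem_Icc, mem_Icc]
    refine ⟨⟨⟨a1, a2⟩, ?_, ?_⟩, a5⟩
    · rw [hτ]; linarith
    · rw [hτ]; linarith
  have hsub : ∀ s ∈ F, s ∈ F₀ := by
    intro s hs
    have hs' := (hm s).mp hs
    rw [Complex.mem_reProdIm, mem_Icc, mem_Icc] at hs'
    obtain ⟨⟨b1, b3, b4⟩, b5⟩ := hs'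
    rw [hm0, Complex.mem_reProdIm, mem_Icc, mem_Icc]
    refine ⟨⟨b1, ?_, ?_⟩, b5⟩
    · rw [hτ] at b3; linarith
    · rw [hτ] at b4; linarith
  refine ⟨τ, ρ₁, F, hm, hρ₁F, fun s hs => hle s ((hm s).mp hs).2, ?_, ?_⟩
  · have h2 := hmax ρ₀ hρ₀F
    rw [hW] at h2
    simp only at h2
    have h3 : (ρ₁.im + τ) ^ 2 = (ρ₁.im - ρ₀.im) ^ 2 / 4 := by
      rw [hτ]; ring
    rw [h3]
    have h4 : 0 ≤ δ * (ρ₁.im - ρ₀.im) ^ 2 := by positivity
    have h5 : 0 ≤ δ * (ρ₀.re - Θ) ^ 2 := by positivity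
    nlinarith
  · intro s hs hne
    have h2 := hmax s (hsub s hs)
    rw [hW] at h2
    simp only at h2
    have hid : ∀ z : ℂ, (z.re - Θ) + δ * ((z.re - Θ) ^ 2 - (z.im + τ) ^ 2) / 2 =
        ((z.re - Θ) + δ * (z.re - Θ) ^ 2 / 2 - δ / 4 * (z.im - ρ₀.im) ^ 2) -
          δ / 4 * (z.im - ρ₁.im) ^ 2 + δ / 8 * (ρ₁.im - ρ₀.im) ^ 2 := by
      intro z
      rw [hτ]; ring
    rw [hid s, hid ρ₁]
    by_cases him : s.im = ρ₁.im
    · have hre : s.re ≠ ρ₁.re := fun h => hne (Complex.ext h him)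
      have hs' := (hm s).mp hs
      rw [Complex.mem_reProdIm, mem_Icc, mem_Icc] at hs'
      obtain ⟨⟨⟨b1, b2⟩, b3, b4⟩, b5⟩ := hs'
      rw [him] at h2 ⊢
      have h3 : (s.re - Θ) + δ * (s.re - Θ) ^ 2 / 2 ≤ (ρ₁.re - Θ) + δ * (ρ₁.re - Θ) ^ 2 / 2 := by
        linarith
      have h4 : (s.re - Θ) + δ * (s.re - Θ) ^ 2 / 2 ≠ (ρ₁.re - Θ) + δ * (ρ₁.re - Θ) ^ 2 / 2 := by
        intro h
        have h5 : (s.re - ρ₁.re) * (1 + δ * ((s.re - Θ) + (ρ₁.re - Θ)) / 2) = 0 := by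
          linear_combination h
        rcases mul_eq_zero.mp h5 with h6 | h6
        · exact hre (by linarith)
        · have h7 : -(1 / 2) ≤ (s.re - Θ) + (ρ₁.re - Θ) := by linarith
          nlinarith
      have h5 := lt_of_le_of_ne h3 h4
      linarith
    · have h3 : 0 < (s.im - ρ₁.im) ^ 2 := by
        have : s.im - ρ₁.im ≠ 0 := sub_ne_zero.mpr him
        positivity
      have h4 : 0 < δ / 4 * (s.im - ρ₁.im) ^ 2 := by positivity
      rw [sub_self (ρ₁.im)]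
      nlinarith

lemma exp_tendsto {a : ℝ} (ha : a < 0) : Tendsto (fun μ : ℝ => Real.exp (a * μ)) atTop (𝓝 0) :=
  Real.tendsto_exp_atBot.comp (tendsto_id.const_mul_atTop_of_neg ha)

/-- The decomposition of the Laplace transform. -/
lemma decomp (h2 : HEq) (τ R : ℝ) (F : Finset ℂ)
    (hF : ∀ s, s ∈ F ↔ (s ∈ Icc (zetaSup - 1 / 4) (zetaSup + 1) ×ℂ Icc (-τ - R) (-τ + R) ∧
      Zs s = 0)) (hre : ∀ s ∈ F, s.re ≤ zetaSup) :
    ∃ (c : ℂ → ℂ) (A : ℂ → ℂ), (∀ ρ ∈ F, c ρ ≠ 0) ∧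
      DifferentiableOn ℂ A (Icc (-(1 / 4)) 1 ×ℂ Icc (-R) R) ∧
      IntegrableOn (fun v : ℝ => ((Sv v : ℂ) * cexp ((-zetaSup + τ * I) * v) -
        ∑ ρ ∈ F, c ρ * cexp ((ρ + (-zetaSup + τ * I)) * v)) * cexp (-(1 : ℂ) * v)) (Ioi 0) ∧
      ∀ w : ℝ, ∫ v in Ioi (0 : ℝ), ((Sv v : ℂ) * cexp ((-zetaSup + τ * I) * v) -
        ∑ ρ ∈ F, c ρ * cexp ((ρ + (-zetaSup + τ * I)) * v)) * cexp (-(1 + w * I) * v) =
          A (1 + w * I) := by
  set Θ : ℝ := zetaSup with hΘ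
  have h1 : Zs 1 ≠ 0 := Zs_ne_zero_of_one_le (by simp)
  have hhalf := half_le_zetaSup
  obtain ⟨m, g, hg, hgK, hm, hld⟩ := logder Zs_differentiable h1 F
    (Icc (Θ - 1 / 4) (Θ + 1) ×ℂ Icc (-τ - R) (-τ + R)) (fun z hz h0 => (hF z).mpr ⟨hz, h0⟩)
  have hFre : ∀ ρ ∈ F, 0 < ρ.re := by
    intro ρ hρ
    have := (hF ρ).mp hρ
    rw [Complex.mem_reProdIm, mem_Icc, mem_Icc] at this
    linarith [this.1.1.1]
  have hF0 : ∀ ρ ∈ F, ρ ≠ 0 := by
    intro ρ hρ h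
    have := hFre ρ hρ
    rw [h] at this
    simp at this
  set c : ℂ → ℂ := fun ρ => -(m ρ : ℂ) / ρ with hc
  set q : ℂ := (Θ : ℂ) - τ * I with hq
  have hqre : q.re = Θ := by simp [hq]
  have hqim : q.im = -τ := by simp [hq]
  set A : ℂ → ℂ := fun z => (∑ ρ ∈ F, (m ρ : ℂ) / ρ - 1) / (q + z) -
    deriv g (q + z) / ((q + z) * g (q + z)) with hA
  refine ⟨c, A, ?_, ?_, ?_⟩
  · intro ρ hρ
    rw [hc]
    simp only
    refine div_ne_zero (neg_ne_zero.mpr ?_) (hF0 ρ hρ)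
    exact_mod_cast hm ρ hρ ((hF ρ).mp hρ).2
  · intro z hz
    rw [Complex.mem_reProdIm, mem_Icc, mem_Icc] at hz
    have hsK : q + z ∈ Icc (Θ - 1 / 4) (Θ + 1) ×ℂ Icc (-τ - R) (-τ + R) := by
      rw [Complex.mem_reProdIm, mem_Icc, mem_Icc, Complex.add_re, Complex.add_im, hqre, hqim]
      exact ⟨⟨by linarith [hz.1.1], by linarith [hz.1.2]⟩, by linarith [hz.2.1],
        by linarith [hz.2.2]⟩
    have hs0 : q + z ≠ 0 := by
      intro h
      have h3 : (q + z).re = 0 := by rw [h]; simp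
      rw [Complex.add_re, hqre] at h3
      linarith [hz.1.1]
    have hgs := hgK _ hsK
    have hdg : Differentiable ℂ (deriv g) := by
      intro s
      exact (hg.analyticAt s).deriv.differentiableAt
    have hadd : DifferentiableAt ℂ (fun z : ℂ => q + z) z := by fun_prop
    have hgz : DifferentiableAt ℂ (fun z : ℂ => g (q + z)) z :=
      (hg (q + z)).comp z hadd
    have hdgz : DifferentiableAt ℂ (fun z : ℂ => deriv g (q + z)) z :=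
      (hdg (q + z)).comp z hadd
    refine DifferentiableAt.differentiableWithinAt ?_
    exact ((differentiableAt_const _).div hadd hs0).sub
      (hdgz.div (hadd.mul hgz) (mul_ne_zero hs0 hgs))
  · -- the exponentials
    have hterm : ∀ (x : ℝ) (w : ℝ), 0 < x → ∀ ρ ∈ F, ((ρ - (q + (x + w * I))) : ℂ).re < 0 := by
      intro x w hx ρ hρ
      have := hre ρ hρ
      simp only [Complex.sub_re, Complex.add_re, hqre, Complex.ofReal_re, Complex.mul_re,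
        Complex.I_re, Complex.I_im, Complex.ofReal_im, mul_zero, mul_one, sub_self, add_zero]
      linarith
    have hform : ∀ (w v : ℝ), ((Sv v : ℂ) * cexp ((-Θ + τ * I) * v) -
        ∑ ρ ∈ F, c ρ * cexp ((ρ + (-Θ + τ * I)) * v)) * cexp (-(1 + w * I) * v) =
        (Sv v : ℂ) * cexp (-(q + (1 + w * I)) * v) -
          ∑ ρ ∈ F, c ρ * cexp ((ρ - (q + (1 + w * I))) * v) := by
      intro w v
      rw [sub_mul, Finset.sum_mul, mul_assoc, ← Complex.exp_add]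
      congr 1
      · congr 2
        rw [hq]; ring
      · refine Finset.sum_congr rfl fun ρ _ => ?_
        rw [mul_assoc, ← Complex.exp_add]
        congr 2
        rw [hq]; ring
    have hs1 : ∀ w : ℝ, Θ < (q + (1 + w * I)).re := by
      intro w
      simp only [Complex.add_re, hqre, Complex.one_re, Complex.mul_re, Complex.ofReal_re,
        Complex.I_re, Complex.ofReal_im, Complex.I_im, mul_zero, mul_one, sub_self, add_zero]
      linarith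
    have hi1 : ∀ w : ℝ, IntegrableOn (fun v : ℝ => (Sv v : ℂ) * cexp (-(q + (1 + w * I)) * v))
        (Ioi 0) := fun w => (h2 _ (hs1 w)).1
    have hi2 : ∀ w : ℝ, ∀ ρ ∈ F,
        IntegrableOn (fun v : ℝ => c ρ * cexp ((ρ - (q + (1 + w * I))) * v)) (Ioi 0) := by
      intro w ρ hρ
      have := hterm 1 w one_pos ρ hρ
      rw [Complex.ofReal_one] at this
      exact (integrableOn_exp_mul_complex_Ioi this 0).const_mul _
    refine ⟨?_, ?_⟩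
    · have h3 : ∀ v : ℝ, ((Sv v : ℂ) * cexp ((-Θ + τ * I) * v) -
        ∑ ρ ∈ F, c ρ * cexp ((ρ + (-Θ + τ * I)) * v)) * cexp (-(1 : ℂ) * v) =
        (Sv v : ℂ) * cexp (-(q + (1 + (0 : ℝ) * I)) * v) -
          ∑ ρ ∈ F, c ρ * cexp ((ρ - (q + (1 + (0 : ℝ) * I))) * v) := by
        intro v
        rw [← hform 0 v]
        congr 2
        push_cast
        ring
      simp_rw [h3]
      exact (hi1 0).sub (integrable_finsetSum _ fun ρ hρ => hi2 0 ρ hρ)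
    · intro w
      simp_rw [hform w]
      rw [integral_sub (hi1 w) (integrable_finsetSum _ fun ρ hρ => hi2 w ρ hρ),
        integral_finsetSum _ (fun ρ hρ => hi2 w ρ hρ)]
      set s : ℂ := q + (1 + w * I) with hs
      have hHH : ∫ v in Ioi (0 : ℝ), (Sv v : ℂ) * cexp (-s * v) = HA s := (h2 s (hs1 w)).2
      rw [hHH]
      have hZs : Zs s ≠ 0 := zetaSup_free s (hs1 w)
      have hs0 : s ≠ 0 := by
        intro h
        have := hs1 w
        rw [← hs, h] at this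
        simp only [Complex.zero_re] at this
        linarith
      have hsρ : ∀ ρ ∈ F, s - ρ ≠ 0 := by
        intro ρ hρ h
        have h4 := hs1 w
        have h5 := hre ρ hρ
        rw [← hs, sub_eq_zero.mp h] at h4
        linarith
      have hint : ∀ ρ ∈ F, ∫ v in Ioi (0 : ℝ), c ρ * cexp ((ρ - s) * v) = c ρ / (s - ρ) := by
        intro ρ hρ
        rw [integral_const_mul]
        have := hterm 1 w one_pos ρ hρ
        rw [Complex.ofReal_one, ← hs] at this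
        rw [integral_exp_mul_complex_Ioi this 0]
        have h6 : ρ - s ≠ 0 := by
          intro h
          exact hsρ ρ hρ (by rw [← neg_sub, h, neg_zero])
        have h7 := hsρ ρ hρ
        rw [Complex.ofReal_zero, mul_zero, Complex.exp_zero]
        have h8 : ρ - s = -(s - ρ) := by ring
        rw [h8]
        field_simp
      rw [Finset.sum_congr rfl hint]
      have hL := hld s hZs
      rw [hA, HA]
      simp only
      rw [← hs]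
      have h9 : -(deriv Zs s) / (s * Zs s) = -(1 / s) * (deriv Zs s / Zs s) := by
        field_simp
      rw [h9, hL, hc]
      simp only
      have h10 : ∀ ρ ∈ F, -(1 / s) * ((m ρ : ℂ) / (s - ρ)) - -(m ρ : ℂ) / ρ / (s - ρ) =
          (m ρ : ℂ) / ρ / s := by
        intro ρ hρ
        have h7 := hsρ ρ hρ
        have h8 := hF0 ρ hρ
        field_simp
        ring
      have h11 : ∑ ρ ∈ F, (-(1 / s) * ((m ρ : ℂ) / (s - ρ))) - ∑ ρ ∈ F, -(m ρ : ℂ) / ρ / (s - ρ) =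
          (∑ ρ ∈ F, (m ρ : ℂ) / ρ) / s := by
        rw [← Finset.sum_sub_distrib, Finset.sum_congr rfl h10, Finset.sum_div]
      rw [← Finset.mul_sum] at h11
      have h12 : deriv g s / (s * g s) = 1 / s * (deriv g s / g s) := by
        rw [div_mul_div_comm, one_mul]
      rw [h12, sub_div]
      linear_combination h11

lemma Eg_norm' (V μ τ : ℝ) (ρ : ℂ) : ‖Eg V μ (ρ + (-zetaSup + τ * I))‖ =
    Real.exp (μ * (ρ.re - zetaSup) + V * ((ρ.re - zetaSup) ^ 2 - (ρ.im + τ) ^ 2) / 2) := by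
  rw [← Eg_norm]
  congr 2
  apply Complex.ext <;> simp
  ring

/-- N8 -/
theorem locMain' (h2 : HEq) : LocMain := by
  intro δ hδ hδ1 η hη
  set η' : ℝ := min η (1 / 10) with hη'
  have hη'0 : 0 < η' := lt_min hη (by norm_num)
  have hη'1 : η' ≤ 1 / 10 := min_le_right _ _
  have hη'η : η' ≤ η := min_le_left _ _
  set R : ℝ := 4 / Real.sqrt δ with hR
  have hR0 : 0 < R := by positivity
  have hR16 : 16 ≤ δ * R ^ 2 := by
    rw [hR, div_pow, Real.sq_sqrt hδ.le]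
    field_simp
    norm_num
  obtain ⟨τ, ρ₁, F, hF, hρ₁, hre, hM, hgap⟩ := choice hδ hδ1 hη'0 hη'1 hR0
  obtain ⟨c, A, hc, hA, hint, hL⟩ := decomp h2 τ R F hF hre
  set T : ℝ → ℂ := fun v => (Sv v : ℂ) * cexp ((-zetaSup + τ * I) * v) -
    ∑ ρ ∈ F, c ρ * cexp ((ρ + (-zetaSup + τ * I)) * v) with hT
  obtain ⟨C, hC, hsmall⟩ := locSmall hδ hδ1 hR0 hR16 T hint A hA (fun w _ => hL w)
  set Ψ : ℂ → ℝ := fun s =>
    (s.re - zetaSup) + δ * ((s.re - zetaSup) ^ 2 - (s.im + τ) ^ 2) / 2 with hΨ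
  set B : ℝ := ∑ ρ ∈ F, ‖c ρ‖ with hB
  have hB0 : 0 ≤ B := Finset.sum_nonneg fun _ _ => norm_nonneg _
  have hEn : ∀ (μ : ℝ) (ρ : ℂ), ‖Eg (δ * μ) μ (ρ + (-zetaSup + τ * I))‖ = Real.exp (μ * Ψ ρ) := by
    intro μ ρ
    rw [Eg_norm']
    congr 1
    rw [hΨ]
    ring
  have hkey : ∀ μ : ℝ, 1 ≤ μ →
      Real.sqrt (2 * Real.pi * (δ * μ)) * (‖c ρ₁‖ * Real.exp (μ * Ψ ρ₁) -
        ∑ ρ ∈ F.erase ρ₁, ‖c ρ‖ * Real.exp (μ * Ψ ρ)) - B * (2 * Real.exp (-μ / 2)) -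
        C * Real.exp (-μ / 8) ≤
      ‖∫ v in Ioi (0 : ℝ), (Sv v : ℂ) * cexp ((-zetaSup + τ * I) * v) *
        (Real.exp (-(v - μ) ^ 2 / (2 * (δ * μ))) : ℂ)‖ := by
    intro μ hμ
    have hμ0 : 0 < μ := by linarith
    have hV : 0 < δ * μ := by positivity
    have hTG : IntegrableOn (fun v : ℝ => T v *
        (Real.exp (-(v - μ) ^ 2 / (2 * (δ * μ))) : ℂ)) (Ioi 0) := by
      have h3 : ∀ v : ℝ, T v * (Real.exp (-(v - μ) ^ 2 / (2 * (δ * μ))) : ℂ) =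
          (cexp v * (Real.exp (-(v - μ) ^ 2 / (2 * (δ * μ))) : ℂ)) *
            (T v * cexp (-(1 : ℂ) * v)) := by
        intro v
        have : cexp (v : ℂ) * cexp (-(1 : ℂ) * v) = 1 := by
          rw [← Complex.exp_add]
          simp
        linear_combination (-(T v * (Real.exp (-(v - μ) ^ 2 / (2 * (δ * μ))) : ℂ))) * this
      simp_rw [h3]
      refine Integrable.bdd_mul (c := Real.exp (μ + δ * μ / 2)) hint ?_ ?_
      · refine Continuous.aestronglyMeasurable ?_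
        fun_prop
      · refine Eventually.of_forall fun v => ?_
        rw [norm_mul, Complex.norm_exp, Complex.norm_real, Real.norm_eq_abs, Real.abs_exp,
          ← Real.exp_add, Complex.ofReal_re]
        apply Real.exp_le_exp.mpr
        have h4 : 0 ≤ (v - μ - δ * μ) ^ 2 / (2 * (δ * μ)) := by positivity
        have h5 : (v - μ - δ * μ) ^ 2 / (2 * (δ * μ)) =
            -(-(v - μ) ^ 2 / (2 * (δ * μ))) - (v - μ) + δ * μ / 2 := by
          field_simp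
          ring
        linarith
    have hexpi : ∀ ρ ∈ F, IntegrableOn (fun v : ℝ => c ρ * (cexp ((ρ + (-zetaSup + τ * I)) * v) *
        (Real.exp (-(v - μ) ^ 2 / (2 * (δ * μ))) : ℂ))) (Ioi 0) := fun ρ _ =>
      ((gauss_exp_int hV μ _).integrableOn).const_mul _
    have hJ : ∫ v in Ioi (0 : ℝ), (Sv v : ℂ) * cexp ((-zetaSup + τ * I) * v) *
        (Real.exp (-(v - μ) ^ 2 / (2 * (δ * μ))) : ℂ) =
        (∫ v in Ioi (0 : ℝ), T v * (Real.exp (-(v - μ) ^ 2 / (2 * (δ * μ))) : ℂ)) +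
        ∑ ρ ∈ F, c ρ * ∫ v in Ioi (0 : ℝ), cexp ((ρ + (-zetaSup + τ * I)) * v) *
          (Real.exp (-(v - μ) ^ 2 / (2 * (δ * μ))) : ℂ) := by
      have h3 : ∀ v : ℝ, (Sv v : ℂ) * cexp ((-zetaSup + τ * I) * v) *
          (Real.exp (-(v - μ) ^ 2 / (2 * (δ * μ))) : ℂ) =
          T v * (Real.exp (-(v - μ) ^ 2 / (2 * (δ * μ))) : ℂ) +
          ∑ ρ ∈ F, c ρ * (cexp ((ρ + (-zetaSup + τ * I)) * v) *
            (Real.exp (-(v - μ) ^ 2 / (2 * (δ * μ))) : ℂ)) := by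
        intro v
        rw [hT]
        simp only
        have h4 : ∑ ρ ∈ F, c ρ * (cexp ((ρ + (-zetaSup + τ * I)) * v) *
            (Real.exp (-(v - μ) ^ 2 / (2 * (δ * μ))) : ℂ)) =
            (∑ ρ ∈ F, c ρ * cexp ((ρ + (-zetaSup + τ * I)) * v)) *
            (Real.exp (-(v - μ) ^ 2 / (2 * (δ * μ))) : ℂ) := by
          rw [Finset.sum_mul]
          exact Finset.sum_congr rfl fun ρ _ => by ring
        rw [h4]
        ring
      simp_rw [h3]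
      rw [integral_add hTG (integrable_finsetSum _ hexpi), integral_finsetSum _ hexpi]
      congr 1
      exact Finset.sum_congr rfl fun ρ _ => by rw [integral_const_mul]
    rw [hJ]
    set sq : ℂ := (Real.sqrt (2 * Real.pi * (δ * μ)) : ℂ) with hsq
    set Iρ : ℂ → ℂ := fun ρ => ∫ v in Ioi (0 : ℝ), cexp ((ρ + (-zetaSup + τ * I)) * v) *
          (Real.exp (-(v - μ) ^ 2 / (2 * (δ * μ))) : ℂ) with hI
    have hdec : ∑ ρ ∈ F, c ρ * Iρ ρ =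
        sq * (c ρ₁ * Eg (δ * μ) μ (ρ₁ + (-zetaSup + τ * I))) +
        sq * (∑ ρ ∈ F.erase ρ₁, c ρ * Eg (δ * μ) μ (ρ + (-zetaSup + τ * I))) +
        ∑ ρ ∈ F, c ρ * (Iρ ρ - sq * Eg (δ * μ) μ (ρ + (-zetaSup + τ * I))) := by
      have h3 : ∑ ρ ∈ F, c ρ * (Iρ ρ - sq * Eg (δ * μ) μ (ρ + (-zetaSup + τ * I))) =
          ∑ ρ ∈ F, c ρ * Iρ ρ - sq * ∑ ρ ∈ F, c ρ * Eg (δ * μ) μ (ρ + (-zetaSup + τ * I)) := by
        rw [Finset.mul_sum, ← Finset.sum_sub_distrib]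
        exact Finset.sum_congr rfl fun ρ _ => by ring
      have h4 := Finset.add_sum_erase F
        (fun ρ => c ρ * Eg (δ * μ) μ (ρ + (-zetaSup + τ * I))) hρ₁
      rw [h3, ← h4]
      ring
    have hY : ‖∑ ρ ∈ F, c ρ * (Iρ ρ - sq * Eg (δ * μ) μ (ρ + (-zetaSup + τ * I)))‖ ≤
        B * (2 * Real.exp (-μ / 2)) := by
      rw [hB, Finset.sum_mul]
      refine (norm_sum_le _ _).trans (Finset.sum_le_sum fun ρ hρ => ?_)
      rw [norm_mul]
      gcongr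
      rw [hI, hsq]
      apply gauss_half hδ hδ1 hμ
      have h4 := (hF ρ).mp hρ
      rw [Complex.mem_reProdIm, mem_Icc, mem_Icc] at h4
      have h5 : (ρ + (-zetaSup + τ * I) : ℂ).re = ρ.re - zetaSup := by
        simp
        ring
      rw [h5]
      linarith [h4.1.1.1]
    have hsqn : ‖sq‖ = Real.sqrt (2 * Real.pi * (δ * μ)) := by
      rw [hsq, Complex.norm_real, Real.norm_eq_abs, abs_of_nonneg (Real.sqrt_nonneg _)]
    have hX1 : ‖sq * (c ρ₁ * Eg (δ * μ) μ (ρ₁ + (-zetaSup + τ * I)))‖ =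
        Real.sqrt (2 * Real.pi * (δ * μ)) * (‖c ρ₁‖ * Real.exp (μ * Ψ ρ₁)) := by
      rw [norm_mul, norm_mul, hsqn, hEn]
    have hX2 : ‖sq * (∑ ρ ∈ F.erase ρ₁, c ρ * Eg (δ * μ) μ (ρ + (-zetaSup + τ * I)))‖ ≤
        Real.sqrt (2 * Real.pi * (δ * μ)) *
          (∑ ρ ∈ F.erase ρ₁, ‖c ρ‖ * Real.exp (μ * Ψ ρ)) := by
      rw [norm_mul, hsqn]
      gcongr
      refine (norm_sum_le _ _).trans (Finset.sum_le_sum fun ρ _ => ?_)
      rw [norm_mul, hEn]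
    rw [hdec]
    have hs := hsmall μ hμ
    set X1 := sq * (c ρ₁ * Eg (δ * μ) μ (ρ₁ + (-zetaSup + τ * I))) with hX1d
    set X2 := sq * (∑ ρ ∈ F.erase ρ₁, c ρ * Eg (δ * μ) μ (ρ + (-zetaSup + τ * I))) with hX2d
    set Y := ∑ ρ ∈ F, c ρ * (Iρ ρ - sq * Eg (δ * μ) μ (ρ + (-zetaSup + τ * I))) with hYd
    set Z := ∫ v in Ioi (0 : ℝ), T v * (Real.exp (-(v - μ) ^ 2 / (2 * (δ * μ))) : ℂ) with hZd
    have h6 : ‖X1‖ ≤ ‖Z + (X1 + X2 + Y)‖ + ‖X2‖ + ‖Y‖ + ‖Z‖ := by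
      have h7 : X1 = (Z + (X1 + X2 + Y)) - X2 - Y - Z := by ring
      calc ‖X1‖ = ‖(Z + (X1 + X2 + Y)) - X2 - Y - Z‖ := by rw [← h7]
        _ ≤ ‖(Z + (X1 + X2 + Y)) - X2 - Y‖ + ‖Z‖ := norm_sub_le _ _
        _ ≤ ‖(Z + (X1 + X2 + Y)) - X2‖ + ‖Y‖ + ‖Z‖ := by gcongr; exact norm_sub_le _ _
        _ ≤ ‖Z + (X1 + X2 + Y)‖ + ‖X2‖ + ‖Y‖ + ‖Z‖ := by gcongr; exact norm_sub_le _ _
    rw [mul_sub]
    linarith
  -- the limit
  have hc1 : 0 < ‖c ρ₁‖ := norm_pos_iff.mpr (hc ρ₁ hρ₁)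
  have hev1 : ∀ᶠ μ : ℝ in atTop, ∑ ρ ∈ F.erase ρ₁, ‖c ρ‖ * Real.exp ((Ψ ρ - Ψ ρ₁) * μ) <
      ‖c ρ₁‖ / 2 := by
    have h3 : Tendsto (fun μ : ℝ => ∑ ρ ∈ F.erase ρ₁, ‖c ρ‖ * Real.exp ((Ψ ρ - Ψ ρ₁) * μ)) atTop
        (𝓝 (∑ ρ ∈ F.erase ρ₁, ‖c ρ‖ * 0)) := by
      refine tendsto_finsetSum _ fun ρ hρ => ?_
      rw [Finset.mem_erase] at hρ
      have h4 : Ψ ρ < Ψ ρ₁ := hgap ρ hρ.2 hρ.1
      exact (exp_tendsto (by linarith)).const_mul _
    simp only [mul_zero, Finset.sum_const_zero] at h3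
    exact h3.eventually_lt_const (by positivity)
  set κ : ℝ := Real.sqrt (2 * Real.pi * δ) with hκ
  have hκ0 : 0 < κ := Real.sqrt_pos.mpr (by positivity)
  have hev2 : ∀ᶠ μ : ℝ in atTop, B * (2 * Real.exp ((-(1 / 2) + η' / 4) * μ)) +
      C * Real.exp ((-(1 / 8) + η' / 4) * μ) + Real.exp ((-η + η' / 4) * μ) < κ * (‖c ρ₁‖ / 2) := by
    have h3 : Tendsto (fun μ : ℝ => B * (2 * Real.exp ((-(1 / 2) + η' / 4) * μ)) +
        C * Real.exp ((-(1 / 8) + η' / 4) * μ) + Real.exp ((-η + η' / 4) * μ)) atTop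
        (𝓝 (B * (2 * 0) + C * 0 + 0)) :=
      ((((exp_tendsto (by linarith)).const_mul _).const_mul _).add
        ((exp_tendsto (by linarith)).const_mul _)).add (exp_tendsto (by linarith))
    simp only [mul_zero, add_zero] at h3
    exact h3.eventually_lt_const (by positivity)
  obtain ⟨μ₀, hμ₀⟩ := (((hev1.and hev2).and (eventually_ge_atTop 1))).exists_forall_of_atTop
  refine ⟨τ, μ₀, fun μ hμ => ?_⟩
  obtain ⟨⟨e1, e2⟩, e3⟩ := hμ₀ μ hμ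
  have hμ0 : 0 < μ := by linarith
  have k1 : ∑ ρ ∈ F.erase ρ₁, ‖c ρ‖ * Real.exp (μ * Ψ ρ) ≤ ‖c ρ₁‖ / 2 * Real.exp (μ * Ψ ρ₁) := by
    have h3 : ∑ ρ ∈ F.erase ρ₁, ‖c ρ‖ * Real.exp (μ * Ψ ρ) =
        (∑ ρ ∈ F.erase ρ₁, ‖c ρ‖ * Real.exp ((Ψ ρ - Ψ ρ₁) * μ)) * Real.exp (μ * Ψ ρ₁) := by
      rw [Finset.sum_mul]
      refine Finset.sum_congr rfl fun ρ _ => ?_
      rw [mul_assoc, ← Real.exp_add]
      congr 2
      ring
    rw [h3]
    gcongr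
  have k2 : κ ≤ Real.sqrt (2 * Real.pi * (δ * μ)) := by
    apply Real.sqrt_le_sqrt
    have : δ ≤ δ * μ := by nlinarith
    gcongr
  have k3 : Real.exp (-(η' / 4) * μ) ≤ Real.exp (μ * Ψ ρ₁) := by
    apply Real.exp_le_exp.mpr
    have : -(η' / 4) ≤ Ψ ρ₁ := hM
    nlinarith
  have k4 : κ * (‖c ρ₁‖ / 2 * Real.exp (-(η' / 4) * μ)) ≤
      Real.sqrt (2 * Real.pi * (δ * μ)) * (‖c ρ₁‖ * Real.exp (μ * Ψ ρ₁) -
        ∑ ρ ∈ F.erase ρ₁, ‖c ρ‖ * Real.exp (μ * Ψ ρ)) := by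
    apply mul_le_mul k2 _ (by positivity) (Real.sqrt_nonneg _)
    have : ‖c ρ₁‖ / 2 * Real.exp (-(η' / 4) * μ) ≤ ‖c ρ₁‖ / 2 * Real.exp (μ * Ψ ρ₁) := by gcongr
    linarith
  have k5 : B * (2 * Real.exp (-μ / 2)) + C * Real.exp (-μ / 8) + Real.exp (-η * μ) ≤
      κ * (‖c ρ₁‖ / 2 * Real.exp (-(η' / 4) * μ)) := by
    have h3 : B * (2 * Real.exp (-μ / 2)) + C * Real.exp (-μ / 8) + Real.exp (-η * μ) =
        (B * (2 * Real.exp ((-(1 / 2) + η' / 4) * μ)) +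
      C * Real.exp ((-(1 / 8) + η' / 4) * μ) + Real.exp ((-η + η' / 4) * μ)) *
        Real.exp (-(η' / 4) * μ) := by
      have e4 : Real.exp (-μ / 2) = Real.exp ((-(1 / 2) + η' / 4) * μ) *
          Real.exp (-(η' / 4) * μ) := by
        rw [← Real.exp_add]; congr 1; ring
      have e5 : Real.exp (-μ / 8) = Real.exp ((-(1 / 8) + η' / 4) * μ) *
          Real.exp (-(η' / 4) * μ) := by
        rw [← Real.exp_add]; congr 1; ring
      have e6 : Real.exp (-η * μ) = Real.exp ((-η + η' / 4) * μ) *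
          Real.exp (-(η' / 4) * μ) := by
        rw [← Real.exp_add]; congr 1; ring
      rw [e4, e5, e6]
      ring
    rw [h3]
    have e7 := mul_le_mul_of_nonneg_right e2.le (Real.exp_pos (-(η' / 4) * μ)).le
    rw [mul_assoc κ] at e7
    exact e7
  have k6 := hkey μ e3
  linarith

theorem locMain (_h1 : PsiB) (h2 : HEq) : LocMain := locMain' h2

end Pool.Agent.H972R2.NL
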